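import Mathlib

/-!
# Finitely dependent point processes (helper322, MP_5bb7da_pr): definitions

Words are lists. A stationary process on `ℤ` with finite alphabet `α` is a measure on `ℤ → α`.
-/

set_option autoImplicit false
open MeasureTheory ProbabilityTheory

namespace Pool.Agent.H322FD

/-- iterated sum over the words of length `n` -/
def Sm {α M : Type} [Fintype α] [AddCommMonoid M] : ℕ → (List α → M) → M
  | 0, f => f []
  | n + 1, f => ∑ a, Sm n (fun w => f (a :: w))

/-- consistent stationary word laws: `W w` is the probability to see the word `w` at a given place -/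
structure WL {α : Type} [Fintype α] (W : List α → ℝ) : Prop where
  nn : ∀ w, 0 ≤ W w
  one : W [] = 1
  left : ∀ w, ∑ a, W (a :: w) = W w
  right : ∀ w, ∑ a, W (w ++ [a]) = W w

/-- the word law `W` has range `k` -/
def WDep {α : Type} [Fintype α] (W : List α → ℝ) (k : ℕ) : Prop :=
  ∀ u v : List α, Sm k (fun m => W (u ++ (m ++ v))) = W u * W v

/-- the window of length `n` at `l` -/
def win {α : Type} (l : ℤ) (n : ℕ) (x : ℤ → α) : Fin n → α := fun i => x (l + (i : ℕ))

/-- the event to see the word `w` at `l` -/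
def Cy {α : Type} (l : ℤ) (w : List α) : Set (ℤ → α) :=
  {x | ∀ (i : ℕ) (h : i < w.length), x (l + (i : ℕ)) = w[i]}

/-- stationary processes of range `k`, in terms of finite windows -/
structure SP {α : Type} [Fintype α] [MeasurableSpace α] (μ : Measure (ℤ → α)) (k : ℕ) : Prop where
  prob : IsProbabilityMeasure μ
  stat : ∀ (l : ℤ) (n : ℕ), μ.map (win l n) = μ.map (win 0 n)
  dep : ∀ (l : ℤ) (m n : ℕ), IndepFun (win l m) (win (l + m + k) n) μ

/-- the word law of a process -/
noncomputable def lw {α : Type} [MeasurableSpace α] (μ : Measure (ℤ → α)) (w : List α) : ℝ :=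
  (μ (Cy 0 w)).toReal

/-- points of `S` are at distance at least `a`, every `b` consecutive sites contain a point of `S` -/
def Gp (a b : ℕ) (S : ℤ → Bool) : Prop :=
  (∀ i j : ℤ, S i = true → S j = true → i < j → i + a ≤ j) ∧
    ∀ l : ℤ, ∃ i : ℤ, l ≤ i ∧ i < l + b ∧ S i = true

instance : MeasurableSpace (Option Bool) := ⊤
instance : MeasurableSingletonClass (Option Bool) := ⟨fun _ => trivial⟩

/-- marked configurations (`none`: empty site, `some true`: marked point, `some false`: unmarked point) -/
structure Mk (a : ℕ) (x : ℤ → Option Bool) : Prop where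
  gap : Gp a (2 * a) (fun i => (x i).isSome)
  two : ∀ i j : ℤ, i < j → x i = some true → x j = some true → ∃ l, i < l ∧ l < j ∧ x l ≠ none
  six : ∀ (l : ℤ) (n : ℕ), (∀ i, l ≤ i → i < l + n → x i ≠ some true) →
    ((Finset.Ico l (l + n)).filter (fun i => x i ≠ none)).card < 6

/-- the marked points -/
def Tm (x : ℤ → Option Bool) : ℤ → Bool := fun i => decide (x i = some true)

open Classical in
/-- insertion of points into the gaps of `T`, at multiples of `2a` from the left end of the gap -/
noncomputable def Ins (a : ℕ) (T : ℤ → Bool) : ℤ → Bool := fun x =>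
  decide (∃ t : ℤ, t ≤ x ∧ x < t + 12 * a ∧ T t = true ∧ (∀ u : ℤ, t < u → u ≤ x → T u = false) ∧
    (2 * (a : ℤ)) ∣ x - t ∧ ∀ u : ℤ, x < u → u < x + 2 * a → T u = false)

/-- the space of configurations on the line: a point in `[0,2]` and the gaps, in `[1,2]` -/
abbrev KS : Type := Set.Icc (0 : ℝ) 2 × (ℤ → Set.Icc (1 : ℝ) 2)

/-- the `n`-th point -/
noncomputable def pt (κ : KS) (n : ℤ) : ℝ :=
  (κ.1 : ℝ) + ∑ i ∈ Finset.Ico 0 n, (κ.2 i : ℝ) - ∑ i ∈ Finset.Ico n 0, (κ.2 i : ℝ)

/-- the point set -/
def Xs (κ : KS) : Set ℝ := Set.range (pt κ)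

/-- linear statistics of the point set -/
noncomputable def NS (f : ℝ → ℝ) (κ : KS) : ℝ := ∑ᶠ n : ℤ, f (pt κ n)

end Pool.Agent.H322FD
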