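import Pool.Agent.Helper322_FD.Defs

/-!
# Finitely dependent point processes (helper322, MP_5bb7da_pr): more definitions
-/

set_option autoImplicit false
open MeasureTheory ProbabilityTheory

namespace Pool.Agent.H322FD

/-- continuous functions decreasing to the indicator of `[u,v]` -/
noncomputable def hat (n : ℕ) (u v x : ℝ) : ℝ :=
  max 0 (1 - ((n : ℝ) + 1) * max (u - x) (max (x - v) 0))

/-- stationarity of the limit law -/
def Stat (P : ProbabilityMeasure KS) : Prop :=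
  ∀ (n : ℕ) (f : Fin n → ℝ → ℝ) (F : (Fin n → ℝ) → ℝ) (t R : ℝ),
        (∀ i, Continuous (f i)) → Continuous F → (∀ i x, f i x ≠ 0 → |x| ≤ R) →
        ∫ κ, F (fun i => NS (fun x => f i (x - t)) κ) ∂(P : Measure KS) =
          ∫ κ, F (fun i => NS (f i) κ) ∂(P : Measure KS)

/-- independence property of the limit law -/
def Ind (P : ProbabilityMeasure KS) : Prop :=
  ∀ (n m : ℕ) (f : Fin n → ℝ → ℝ) (g : Fin m → ℝ → ℝ) (F : (Fin n → ℝ) → ℝ)
        (G : (Fin m → ℝ) → ℝ) (R : ℝ),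
        (∀ i, Continuous (f i)) → (∀ i, Continuous (g i)) → Continuous F → Continuous G →
        (∀ i x, f i x ≠ 0 → |x| ≤ R ∧ x ≤ 1) → (∀ i x, g i x ≠ 0 → |x| ≤ R ∧ 32 ≤ x) →
        ∫ κ, F (fun i => NS (f i) κ) * G (fun i => NS (g i) κ) ∂(P : Measure KS) =
          (∫ κ, F (fun i => NS (f i) κ) ∂(P : Measure KS)) *
            ∫ κ, G (fun i => NS (g i) κ) ∂(P : Measure KS)

end Pool.Agent.H322FD
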