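import Pool.Agent.Helper322_FD.Defs

/-!
# Sums over words (helper322, MP_5bb7da_pr)
-/

set_option autoImplicit false

namespace Pool.Agent.H322FD

section Sm
variable {α M N : Type} [Fintype α] [AddCommMonoid M] [AddCommMonoid N]

theorem Sm_zero (f : List α → M) : Sm 0 f = f [] := rfl

theorem Sm_succ (n : ℕ) (f : List α → M) : Sm (n + 1) f = ∑ a, Sm n (fun w => f (a :: w)) := rfl

theorem Sm_congr (n : ℕ) (f g : List α → M) (h : ∀ w : List α, w.length = n → f w = g w) :
    Sm n f = Sm n g := by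
  induction n generalizing f g with
  | zero => exact h [] rfl
  | succ n ih =>
    rw [Sm_succ, Sm_succ]
    refine Finset.sum_congr rfl fun a _ => ih _ _ fun w hw => h _ (by simp [hw])

theorem Sm_add (m n : ℕ) (f : List α → M) :
    Sm (m + n) f = Sm m (fun u => Sm n (fun v => f (u ++ v))) := by
  induction m generalizing f with
  | zero => simp [Sm_zero]
  | succ m ih =>
    rw [Nat.succ_add m n, Sm_succ, Sm_succ]
    refine Finset.sum_congr rfl fun a _ => ?_
    rw [ih]
    rfl

theorem Sm_snoc (n : ℕ) (f : List α → M) : Sm (n + 1) f = Sm n (fun w => ∑ a, f (w ++ [a])) := by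
  rw [Sm_add]
  rfl

theorem Sm_sum {ι : Type} (s : Finset ι) (n : ℕ) (f : ι → List α → M) :
    Sm n (fun w => ∑ i ∈ s, f i w) = ∑ i ∈ s, Sm n (f i) := by
  induction n generalizing f with
  | zero => rfl
  | succ n ih =>
    rw [Sm_succ]
    have : ∀ a : α, Sm n (fun w => ∑ i ∈ s, f i (a :: w)) = ∑ i ∈ s, Sm n (fun w => f i (a :: w)) :=
      fun a => ih _
    rw [Finset.sum_congr rfl fun a _ => this a, Finset.sum_comm]
    rfl

theorem Sm_map (φ : M →+ N) (n : ℕ) (f : List α → M) : φ (Sm n f) = Sm n (fun w => φ (f w)) := by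
  induction n generalizing f with
  | zero => rfl
  | succ n ih =>
    rw [Sm_succ, Sm_succ, map_sum]
    exact Finset.sum_congr rfl fun a _ => ih _

theorem Sm_ofFn (n : ℕ) (f : List α → M) : Sm n f = ∑ g : Fin n → α, f (List.ofFn g) := by
  induction n generalizing f with
  | zero => simp [Sm_zero]
  | succ n ih =>
    rw [Sm_succ]
    simp_rw [ih]
    rw [← (Fin.consEquiv (fun _ : Fin (n + 1) => α)).sum_comp, Fintype.sum_prod_type]
    refine Finset.sum_congr rfl fun a _ => Finset.sum_congr rfl fun g _ => ?_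
    simp [Fin.consEquiv, List.ofFn_succ]

theorem Sm_mul_left (n : ℕ) (c : ℝ) (f : List α → ℝ) : Sm n (fun w => c * f w) = c * Sm n f :=
  (Sm_map (AddMonoidHom.mulLeft c) n f).symm

theorem Sm_mul_right (n : ℕ) (c : ℝ) (f : List α → ℝ) : Sm n (fun w => f w * c) = Sm n f * c :=
  (Sm_map (AddMonoidHom.mulRight c) n f).symm

theorem Sm_zero_fun (n : ℕ) : Sm n (fun _ : List α => (0 : M)) = 0 := by
  induction n with
  | zero => rfl
  | succ n ih => rw [Sm_succ, ih]; simp

theorem Sm_single [DecidableEq α] (w : List α) (f : List α → M) :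
    Sm w.length (fun v => if v = w then f v else 0) = f w := by
  induction w generalizing f with
  | nil => simp [Sm_zero]
  | cons b w ih =>
    rw [List.length_cons, Sm_succ, Finset.sum_eq_single b]
    · have := ih (fun v => f (b :: v))
      rw [← this]
      refine Sm_congr _ _ _ fun v _ => ?_
      simp
    · intro a _ ha
      rw [Sm_congr _ _ (fun _ => (0 : M)) fun v _ => by simp [ha]]
      exact Sm_zero_fun _
    · intro h
      exact absurd (Finset.mem_univ b) h

theorem WL.sm_left {W : List α → ℝ} (hW : WL W) (n : ℕ) (v : List α) :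
    Sm n (fun m => W (m ++ v)) = W v := by
  induction n with
  | zero => rfl
  | succ n ih =>
    rw [Sm_succ, ← ih, ← Sm_sum]
    refine Sm_congr _ _ _ fun w _ => ?_
    exact hW.left _

theorem WL.sm_right {W : List α → ℝ} (hW : WL W) (n : ℕ) (u : List α) :
    Sm n (fun m => W (u ++ m)) = W u := by
  induction n with
  | zero => simp [Sm_zero]
  | succ n ih =>
    rw [Sm_snoc, ← ih]
    refine Sm_congr _ _ _ fun w _ => ?_
    rw [← hW.right (u ++ w)]
    simp

theorem WDep.mono {W : List α → ℝ} (hW : WL W) {k k' : ℕ} (h : WDep W k) (hk : k ≤ k') :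
    WDep W k' := by
  intro u v
  obtain ⟨d, rfl⟩ := Nat.exists_eq_add_of_le hk
  rw [Sm_add]
  have h1 : Sm k (fun m => Sm d (fun m' => W (u ++ ((m ++ m') ++ v)))) =
      Sm k (fun m => Sm d (fun m' => W (u ++ (m ++ (m' ++ v))))) := by
    simp
  rw [h1]
  have h2 : Sm k (fun m => Sm d (fun m' => W (u ++ (m ++ (m' ++ v))))) =
      Sm d (fun m' => Sm k (fun m => W (u ++ (m ++ (m' ++ v))))) := by
    rw [Sm_ofFn d, ← Sm_sum]
    refine Sm_congr _ _ _ fun m _ => ?_
    rw [Sm_ofFn d]
  rw [h2]
  have h3 : Sm d (fun m' => Sm k (fun m => W (u ++ (m ++ (m' ++ v))))) =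
      Sm d (fun m' => W u * W (m' ++ v)) := Sm_congr _ _ _ fun m' _ => h u (m' ++ v)
  rw [h3, Sm_mul_left, hW.sm_left]
end Sm

end Pool.Agent.H322FD
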