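import Pool.Agent.Helper322_FD.Defs

/-!
# The Holroyd-Liggett colouring (helper848 for helper322, MP_5bb7da_pr)

The 1-dependent stationary proper 4-colouring of the integers, given by its word law.
-/

set_option autoImplicit false
open MeasureTheory ProbabilityTheory

namespace Pool.Agent.H322FD

/-- sum of `f` over the words obtained by deleting one letter -/
noncomputable def Dl : (List (Fin 4) → ℝ) → List (Fin 4) → ℝ
  | _, [] => 0
  | f, a :: w => f w + Dl (fun v => f (a :: v)) w

lemma Dl_nil (f : List (Fin 4) → ℝ) : Dl f [] = 0 := rfl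

lemma Dl_cons (f : List (Fin 4) → ℝ) (a : Fin 4) (w : List (Fin 4)) :
    Dl f (a :: w) = f w + Dl (fun v => f (a :: v)) w := rfl

lemma Dl_congr (w : List (Fin 4)) : ∀ f g : List (Fin 4) → ℝ,
    (∀ v : List (Fin 4), v.length + 1 = w.length → f v = g v) → Dl f w = Dl g w := by
  induction w with
  | nil => intro f g _; rfl
  | cons a w ih =>
    intro f g h
    rw [Dl_cons, Dl_cons, h w (by simp), ih _ _ (fun v hv => h (a :: v) (by simpa using hv))]

lemma Dl_zero (w : List (Fin 4)) : Dl (fun _ => 0) w = 0 := by
  induction w with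
  | nil => rfl
  | cons a w ih => rw [Dl_cons, ih, add_zero]

lemma Dl_append (x : List (Fin 4)) : ∀ (f : List (Fin 4) → ℝ) (y : List (Fin 4)),
    Dl f (x ++ y) = Dl (fun v => f (v ++ y)) x + Dl (fun v => f (x ++ v)) y := by
  induction x with
  | nil => intro f y; simp [Dl_nil]
  | cons a x ih =>
    intro f y
    rw [List.cons_append, Dl_cons, Dl_cons, ih]
    simp only [List.cons_append]
    ring

lemma Dl_sum (w : List (Fin 4)) : ∀ g : Fin 4 → List (Fin 4) → ℝ,
    Dl (fun v => ∑ a, g a v) w = ∑ a, Dl (g a) w := by
  induction w with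
  | nil => intro g; simp [Dl_nil]
  | cons b w ih =>
    intro g
    simp only [Dl_cons]
    rw [ih (fun a v => g a (b :: v)), Finset.sum_add_distrib]

lemma Dl_mul (w : List (Fin 4)) (c : ℝ) : ∀ f : List (Fin 4) → ℝ,
    Dl (fun v => c * f v) w = c * Dl f w := by
  induction w with
  | nil => intro f; simp [Dl_nil]
  | cons b w ih =>
    intro f
    simp only [Dl_cons]
    rw [ih (fun v => f (b :: v))]
    ring

lemma Dl_nonneg (w : List (Fin 4)) : ∀ f : List (Fin 4) → ℝ, (∀ v, 0 ≤ f v) → 0 ≤ Dl f w := by
  induction w with
  | nil => intro f _; exact le_rfl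
  | cons a w ih => intro f h; rw [Dl_cons]; exact add_nonneg (h w) (ih _ fun v => h _)

/-- proper words -/
abbrev Pr (w : List (Fin 4)) : Prop := w.IsChain (fun a b => a ≠ b)

open Classical in
/-- number of the proper buildings, with fuel -/
noncomputable def Bn : ℕ → List (Fin 4) → ℝ
  | 0, _ => 1
  | n + 1, w => if Pr w then Dl (Bn n) w else 0

/-- number of the proper buildings of a word -/
noncomputable def Bu (w : List (Fin 4)) : ℝ := Bn w.length w

lemma Bn_nonneg (n : ℕ) : ∀ w, 0 ≤ Bn n w := by
  induction n with
  | zero => intro w; simp [Bn]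
  | succ n ih =>
    intro w
    rw [Bn]
    split_ifs
    · exact Dl_nonneg _ _ ih
    · exact le_rfl

lemma Bu_nonneg (w : List (Fin 4)) : 0 ≤ Bu w := Bn_nonneg _ _

lemma Bu_nil : Bu [] = 1 := rfl

lemma Bu_not {w : List (Fin 4)} (h : ¬ Pr w) : Bu w = 0 := by
  rcases hw : w.length with _ | n
  · exact absurd (by rw [List.length_eq_zero_iff.1 hw]; exact List.isChain_nil) h
  · rw [Bu, hw, Bn, if_neg h]

lemma Bu_eq {w : List (Fin 4)} (h : Pr w) (hw : w ≠ []) : Bu w = Dl Bu w := by
  rcases hl : w.length with _ | n
  · exact absurd (List.length_eq_zero_iff.1 hl) hw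
  · rw [Bu, hl, Bn, if_pos h]
    refine Dl_congr w _ _ fun v hv => ?_
    rw [hl] at hv
    rw [Bu, show v.length = n by omega]

/-- the words ending with `a`, followed by `a`, are not proper -/
lemma Bu_last {x : List (Fin 4)} {a : Fin 4} (h : x.getLast? = some a) (z : List (Fin 4)) :
    Bu (x ++ a :: z) = 0 := by
  refine Bu_not fun hp => ?_
  rw [Pr, List.isChain_append] at hp
  exact hp.2.2 a h a rfl rfl

lemma Bu_head {y : List (Fin 4)} {a : Fin 4} (h : y.head? = some a) (z : List (Fin 4)) :
    Bu (z ++ a :: y) = 0 := by
  refine Bu_not fun hp => ?_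
  rw [Pr, List.isChain_append, List.isChain_cons] at hp
  exact hp.2.1.1 a h rfl

lemma Gx_last {x : List (Fin 4)} {a : Fin 4} (h : x.getLast? = some a) (y : List (Fin 4)) :
    Dl (fun v => Bu (v ++ a :: y)) x = Bu (x ++ y) := by
  obtain ⟨x', rfl⟩ : ∃ x', x = x' ++ [a] := by
    rcases List.eq_nil_or_concat x with rfl | ⟨x', b, rfl⟩
    · simp at h
    · refine ⟨x', ?_⟩
      simp at h
      subst h
      exact List.concat_eq_append
  rw [Dl_append]
  have h1 : Dl (fun v => Bu (v ++ [a] ++ a :: y)) x' = 0 := by
    have : (fun v => Bu (v ++ [a] ++ a :: y)) = fun _ => 0 := by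
      funext v
      exact Bu_last (by simp) y
    rw [this, Dl_zero]
  rw [h1, Dl_cons, Dl_nil]
  simp

lemma Gy_head {y : List (Fin 4)} {a : Fin 4} (h : y.head? = some a) (x : List (Fin 4)) :
    Dl (fun v => Bu (x ++ a :: v)) y = Bu (x ++ y) := by
  obtain ⟨y', rfl⟩ : ∃ y', y = a :: y' := by
    cases y with
    | nil => simp at h
    | cons b y' =>
      simp at h
      subst h
      exact ⟨y', rfl⟩
  rw [Dl_cons]
  have h1 : Dl (fun v => Bu (x ++ a :: a :: v)) y' = 0 := by
    have : (fun v => Bu (x ++ a :: a :: v)) = fun _ => 0 := by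
      funext v
      exact Bu_head rfl x
    rw [this, Dl_zero]
  rw [h1, add_zero]

lemma Gy_last {x : List (Fin 4)} {a : Fin 4} (h : x.getLast? = some a) (y : List (Fin 4)) :
    Dl (fun v => Bu (x ++ a :: v)) y = 0 := by
  have : (fun v => Bu (x ++ a :: v)) = fun _ => 0 := by
    funext v
    exact Bu_last h v
  rw [this, Dl_zero]

lemma Gx_head {y : List (Fin 4)} {a : Fin 4} (h : y.head? = some a) (x : List (Fin 4)) :
    Dl (fun v => Bu (v ++ a :: y)) x = 0 := by
  have : (fun v => Bu (v ++ a :: y)) = fun _ => 0 := by
    funext v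
    exact Bu_head h v
  rw [this, Dl_zero]

/-- deletion of a letter of `x a y`, for proper `x`, `y` -/
lemma Bu_mid {x y : List (Fin 4)} (hx : Pr x) (hy : Pr y) (a : Fin 4) :
    Bu (x ++ a :: y) = Dl (fun v => Bu (v ++ a :: y)) x + Bu (x ++ y) +
      Dl (fun v => Bu (x ++ a :: v)) y -
      2 * (if x.getLast? = some a then Bu (x ++ y) else 0) -
      2 * (if y.head? = some a then Bu (x ++ y) else 0) := by
  by_cases h1 : x.getLast? = some a
  · rw [if_pos h1, Bu_last h1, Gx_last h1, Gy_last h1]
    by_cases h2 : y.head? = some a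
    · rw [if_pos h2]
      have h3 := Gx_last h1 y
      rw [Gx_head h2] at h3
      rw [← h3]
      ring
    · rw [if_neg h2]
      ring
  · by_cases h2 : y.head? = some a
    · rw [if_neg h1, if_pos h2, Bu_head h2, Gx_head h2, Gy_head h2]
      ring
    · rw [if_neg h1, if_neg h2]
      have hp : Pr (x ++ a :: y) := by
        rw [Pr, List.isChain_append, List.isChain_cons]
        refine ⟨hx, ⟨?_, hy⟩, ?_⟩
        · intro b hb hab
          exact h2 (by rw [hab]; exact hb)
        · intro b hb c hc
          simp only [List.head?_cons, Option.mem_def, Option.some.injEq] at hc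
          subst hc
          intro hab
          exact h1 (by rw [← hab]; exact hb)
      rw [Bu_eq hp (by simp), Dl_append, Dl_cons]
      ring

lemma sum_ite_opt (o : Option (Fin 4)) (c : ℝ) :
    ∑ a : Fin 4, (if o = some a then c else 0) = if o = none then 0 else c := by
  cases o with
  | none => simp
  | some b => simp

/-- the main identity -/
theorem Bu_key (N : ℕ) : ∀ x y : List (Fin 4), x.length + y.length = N →
    ∑ a, Bu (x ++ a :: y) =
      2 * ((x.length + y.length + 2).choose (x.length + 1) : ℝ) * Bu x * Bu y := by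
  induction N using Nat.strong_induction_on with
  | _ N ih =>
    intro x y hN
    by_cases hx : Pr x
    · by_cases hy : Pr y
      · have h1 : ∑ a, Bu (x ++ a :: y) = ∑ a, Dl (fun v => Bu (v ++ a :: y)) x + 4 * Bu (x ++ y) +
            ∑ a, Dl (fun v => Bu (x ++ a :: v)) y -
            2 * (if x.getLast? = none then 0 else Bu (x ++ y)) -
            2 * (if y.head? = none then 0 else Bu (x ++ y)) := by
          rw [Finset.sum_congr rfl fun a _ => Bu_mid hx hy a, Finset.sum_sub_distrib,
            Finset.sum_sub_distrib, Finset.sum_add_distrib, Finset.sum_add_distrib,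
            ← Finset.mul_sum, ← Finset.mul_sum, sum_ite_opt, sum_ite_opt]
          simp
        have hX : ∑ a, Dl (fun v => Bu (v ++ a :: y)) x =
            2 * ((x.length + y.length + 1).choose x.length : ℝ) * Bu x * Bu y -
              2 * (if x.getLast? = none then Bu (x ++ y) else 0) := by
          rw [← Dl_sum]
          rcases List.eq_nil_or_concat x with hnil | ⟨x', b, hb⟩
          · subst hnil
            simp [Dl_nil, Bu_nil]
          · have hxne : x ≠ [] := by rw [hb]; simp
            have hlen : 1 ≤ x.length := List.length_pos_iff.2 hxne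
            have h2 : Dl (fun v => ∑ a, Bu (v ++ a :: y)) x =
                Dl (fun v => (2 * ((x.length + y.length + 1).choose x.length : ℝ) * Bu y) * Bu v)
                  x := by
              refine Dl_congr x _ _ fun v hv => ?_
              rw [ih (v.length + y.length) (by omega) v y rfl,
                show v.length + y.length + 2 = x.length + y.length + 1 by omega, hv]
              ring
            rw [h2, Dl_mul, ← Bu_eq hx hxne, if_neg (by simp [hxne])]
            ring
        have hY : ∑ a, Dl (fun v => Bu (x ++ a :: v)) y =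
            2 * ((x.length + y.length + 1).choose (x.length + 1) : ℝ) * Bu x * Bu y -
              2 * (if y.head? = none then Bu (x ++ y) else 0) := by
          rw [← Dl_sum]
          rcases List.eq_nil_or_concat y with hnil | ⟨y', b, hb⟩
          · subst hnil
            simp [Dl_nil, Bu_nil]
          · have hyne : y ≠ [] := by rw [hb]; simp
            have hlen : 1 ≤ y.length := List.length_pos_iff.2 hyne
            have h2 : Dl (fun v => ∑ a, Bu (x ++ a :: v)) y =
                Dl (fun v => (2 * ((x.length + y.length + 1).choose (x.length + 1) : ℝ) * Bu x) *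
                  Bu v) y := by
              refine Dl_congr y _ _ fun v hv => ?_
              rw [ih (x.length + v.length) (by omega) x v rfl,
                show x.length + v.length + 2 = x.length + y.length + 1 by omega]
            rw [h2, Dl_mul, ← Bu_eq hy hyne, if_neg (by simp [hyne])]
            ring
        have hc : ((x.length + y.length + 2).choose (x.length + 1) : ℝ) =
            ((x.length + y.length + 1).choose x.length : ℝ) +
              ((x.length + y.length + 1).choose (x.length + 1) : ℝ) := by
          rw [show x.length + y.length + 2 = (x.length + y.length + 1) + 1 by ring,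
            Nat.choose_succ_succ]
          push_cast
          ring
        rw [h1, hX, hY, hc]
        split_ifs <;> ring
      · have h0 : ∀ a, Bu (x ++ a :: y) = 0 := fun a => Bu_not fun hp => hy (by
          rw [Pr, List.isChain_append, List.isChain_cons] at hp
          exact hp.2.1.2)
        rw [Finset.sum_congr rfl fun a _ => h0 a, Bu_not hy]
        simp
    · have h0 : ∀ a, Bu (x ++ a :: y) = 0 := fun a => Bu_not fun hp => hx (by
        rw [Pr, List.isChain_append] at hp
        exact hp.1)
      rw [Finset.sum_congr rfl fun a _ => h0 a, Bu_not hx]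
      simp

/-- the word law of the colouring -/
noncomputable def PC (w : List (Fin 4)) : ℝ := Bu w / (2 ^ w.length * ((w.length + 1).factorial : ℝ))

lemma PC_mid (x y : List (Fin 4)) : ∑ a, PC (x ++ a :: y) = PC x * PC y := by
  have hlen : ∀ a : Fin 4, (x ++ a :: y).length = x.length + y.length + 1 := by
    intro a
    simp
    ring
  have h1 : ∑ a, PC (x ++ a :: y) = (∑ a, Bu (x ++ a :: y)) /
      (2 ^ (x.length + y.length + 1) * ((x.length + y.length + 2).factorial : ℝ)) := by
    rw [Finset.sum_div]
    refine Finset.sum_congr rfl fun a _ => ?_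
    rw [PC, hlen]
  rw [h1, Bu_key _ x y rfl, PC, PC]
  have h2 : (x.length + y.length + 2).choose (x.length + 1) * (x.length + 1).factorial *
      (y.length + 1).factorial = (x.length + y.length + 2).factorial := by
    have := Nat.choose_mul_factorial_mul_factorial
      (n := x.length + y.length + 2) (k := x.length + 1) (by omega)
    rwa [show x.length + y.length + 2 - (x.length + 1) = y.length + 1 by omega] at this
  have h3 : ((x.length + y.length + 2).factorial : ℝ) =
      ((x.length + y.length + 2).choose (x.length + 1) : ℝ) * ((x.length + 1).factorial : ℝ) *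
        ((y.length + 1).factorial : ℝ) := by
    rw [← h2]
    push_cast
    ring
  have hc : ((x.length + y.length + 2).choose (x.length + 1) : ℝ) ≠ 0 := by
    exact_mod_cast (Nat.choose_pos (by omega)).ne'
  have hf1 : ((x.length + 1).factorial : ℝ) ≠ 0 := by exact_mod_cast (Nat.factorial_pos _).ne'
  have hf2 : ((y.length + 1).factorial : ℝ) ≠ 0 := by exact_mod_cast (Nat.factorial_pos _).ne'
  rw [h3, pow_succ, pow_add]
  field_simp

lemma PC_nil : PC [] = 1 := by simp [PC, Bu_nil]

theorem exists_colouring : ∃ P : List (Fin 4) → ℝ, WL P ∧ WDep P 1 ∧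
    ∀ w, P w ≠ 0 → w.IsChain (fun a b => a ≠ b) := by
  refine ⟨PC, ⟨?_, PC_nil, ?_, ?_⟩, ?_, ?_⟩
  · intro w
    exact div_nonneg (Bu_nonneg w) (by positivity)
  · intro w
    have := PC_mid [] w
    simpa [PC_nil] using this
  · intro w
    have := PC_mid w []
    simpa [PC_nil] using this
  · intro u v
    have := PC_mid u v
    simpa [Sm] using this
  · intro w hw
    by_contra h
    exact hw (by rw [PC, Bu_not h, zero_div])

end Pool.Agent.H322FD
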