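import Pool.Agent.Helper322_FD.PartB

/-!
# The index process (helper848 for helper322, MP_5bb7da_pr)
-/

set_option autoImplicit false
open MeasureTheory ProbabilityTheory

namespace Pool.Agent.H322FD

/-- the local maxima of a colouring -/
def Mx (x : ℤ → Fin 4) : ℤ → Bool := fun i => decide (x (i - 1) < x i ∧ x (i + 1) < x i)

lemma Mx_true {x : ℤ → Fin 4} {i : ℤ} : Mx x i = true ↔ x (i - 1) < x i ∧ x (i + 1) < x i := by
  simp [Mx]

lemma Mx_not_adj (x : ℤ → Fin 4) (i : ℤ) : ¬ (Mx x i = true ∧ Mx x (i + 1) = true) := by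
  rintro ⟨h1, h2⟩
  rw [Mx_true] at h1 h2
  have h3 := h1.2
  have h4 := h2.1
  rw [show i + 1 - 1 = i by ring] at h4
  exact absurd h3 (not_lt_of_gt h4)

/-- eight consecutive colours contain a local maximum -/
lemma Mx_six (x : ℤ → Fin 4) (hx : ∀ i, x i ≠ x (i + 1)) (i : ℤ) :
    ∃ j : ℤ, i ≤ j ∧ j < i + 6 ∧ Mx x j = true := by
  by_contra hcon
  push Not at hcon
  have hno : ∀ j : ℤ, i ≤ j → j < i + 6 → ¬ (x (j - 1) < x j ∧ x (j + 1) < x j) := by
    intro j h1 h2 h3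
    exact hcon j h1 h2 (Mx_true.2 h3)
  set c : ℕ → ℕ := fun k => (x (i - 1 + k)).val with hc
  have hlt : ∀ k, c k < 4 := fun k => (x (i - 1 + k)).isLt
  have hne : ∀ k, c k ≠ c (k + 1) := by
    intro k h
    apply hx (i - 1 + k)
    apply Fin.ext
    have : i - 1 + (k : ℤ) + 1 = i - 1 + ((k + 1 : ℕ) : ℤ) := by push_cast; ring
    rw [this]
    exact h
  have hmx : ∀ k, k < 6 → ¬ (c k < c (k + 1) ∧ c (k + 2) < c (k + 1)) := by
    intro k hk h
    apply hno (i + k) (by omega) (by omega)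
    have e1 : i + (k : ℤ) - 1 = i - 1 + (k : ℤ) := by ring
    have e2 : i + (k : ℤ) = i - 1 + ((k + 1 : ℕ) : ℤ) := by push_cast; ring
    have e3 : i + (k : ℤ) + 1 = i - 1 + ((k + 2 : ℕ) : ℤ) := by push_cast; ring
    rw [e3, e1, e2]
    exact h
  have a0 := hmx 0 (by norm_num)
  have a1 := hmx 1 (by norm_num)
  have a2 := hmx 2 (by norm_num)
  have a3 := hmx 3 (by norm_num)
  have a4 := hmx 4 (by norm_num)
  have a5 := hmx 5 (by norm_num)
  have b0 := hne 0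
  have b1 := hne 1
  have b2 := hne 2
  have b3 := hne 3
  have b4 := hne 4
  have b5 := hne 5
  have b6 := hne 6
  have d0 := hlt 0
  have d7 := hlt 7
  norm_num at a0 a1 a2 a3 a4 a5 b0 b1 b2 b3 b4 b5 b6
  rcases lt_or_gt_of_ne b3 with h | h
  · have h4 : c 4 < c 5 := lt_of_le_of_ne (a3 h) b4
    have h5 : c 5 < c 6 := lt_of_le_of_ne (a4 h4) b5
    have h6 : c 6 < c 7 := lt_of_le_of_ne (a5 h5) b6
    omega
  · have h2 : c 3 < c 2 := by
      rcases lt_or_gt_of_ne b2 with h' | h'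
      · exact absurd (a2 h') (by omega)
      · exact h'
    have h1 : c 2 < c 1 := by
      rcases lt_or_gt_of_ne b1 with h' | h'
      · exact absurd (a1 h') (by omega)
      · exact h'
    have h0 : c 1 < c 0 := by
      rcases lt_or_gt_of_ne b0 with h' | h'
      · exact absurd (a0 h') (by omega)
      · exact h'
    omega

lemma Mx_shift (x : ℤ → Fin 4) (n i : ℤ) : Mx (fun j => x (j + n)) i = Mx x (i + n) := by
  simp only [Mx, decide_eq_decide]
  rw [show i - 1 + n = i + n - 1 by ring, show i + 1 + n = i + n + 1 by ring]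

lemma Mx_loc (x y : ℤ → Fin 4) (i : ℤ) (h : ∀ j : ℤ, |j - i| ≤ ((1 : ℕ) : ℤ) → x j = y j) :
    Mx x i = Mx y i := by
  simp only [Mx]
  rw [h (i - 1) (by rw [show i - 1 - i = -1 by ring]; simp), h i (by simp),
    h (i + 1) (by rw [show i + 1 - i = 1 by ring]; simp)]

theorem exists_index_of
    (h1 : ∀ W : List (Fin 4) → ℝ, WL W → ∃ μ : Measure (ℤ → Fin 4), IsProbabilityMeasure μ ∧
      ∀ (l : ℤ) (w : List (Fin 4)), μ (Cy l w) = ENNReal.ofReal (W w))
    (h2 : ∀ (μ : Measure (ℤ → Fin 4)), IsProbabilityMeasure μ → ∀ (W : List (Fin 4) → ℝ), WL W →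
      ∀ (k : ℕ), WDep W k →
      (∀ (l : ℤ) (w : List (Fin 4)), μ (Cy l w) = ENNReal.ofReal (W w)) → SP μ k)
    (h3 : ∀ (μ : Measure (ℤ → Fin 4)) (k r : ℕ), SP μ k → ∀ (Φ : (ℤ → Fin 4) → (ℤ → Bool)),
      (∀ (x : ℤ → Fin 4) (n i : ℤ), Φ (fun j => x (j + n)) i = Φ x (i + n)) →
      (∀ (x y : ℤ → Fin 4) (i : ℤ), (∀ j : ℤ, |j - i| ≤ r → x j = y j) → Φ x i = Φ y i) →
      Measurable Φ ∧ SP (μ.map Φ) (k + 2 * r)) :
    ∃ μ : Measure (ℤ → Bool), SP μ 3 ∧ ∀ᵐ x ∂μ,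
      (∀ i : ℤ, ¬ (x i = true ∧ x (i + 1) = true)) ∧
        ∀ i : ℤ, ∃ j : ℤ, i ≤ j ∧ j < i + 6 ∧ x j = true := by
  obtain ⟨P, hP, hD, hch⟩ := exists_colouring
  obtain ⟨μ, hμ, hcy⟩ := h1 P hP
  have hsp := h2 μ hμ P hP 1 hD hcy
  obtain ⟨hmeas, hsp'⟩ := h3 μ 1 1 hsp Mx Mx_shift Mx_loc
  refine ⟨μ.map Mx, hsp', ?_⟩
  have hprop : ∀ᵐ x ∂μ, ∀ i : ℤ, x i ≠ x (i + 1) := by
    rw [ae_all_iff]
    intro i
    have hsub : {x : ℤ → Fin 4 | ¬ x i ≠ x (i + 1)} ⊆ ⋃ a : Fin 4, Cy i [a, a] := by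
      intro x hx
      simp only [Set.mem_ofPred_eq, not_not] at hx
      rw [Set.mem_iUnion]
      refine ⟨x i, ?_⟩
      intro j hj
      simp only [List.length_cons, List.length_nil] at hj
      interval_cases j
      · simp
      · simpa using hx.symm
    refine measure_mono_null hsub ?_
    rw [measure_iUnion_null_iff]
    intro a
    rw [hcy]
    have : P [a, a] = 0 := by
      by_contra h
      have := hch _ h
      simp at this
    rw [this, ENNReal.ofReal_zero]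
  have hset : MeasurableSet {x : ℤ → Bool | (∀ i : ℤ, ¬ (x i = true ∧ x (i + 1) = true)) ∧
      ∀ i : ℤ, ∃ j : ℤ, i ≤ j ∧ j < i + 6 ∧ x j = true} := by
    have hco : ∀ i : ℤ, MeasurableSet {x : ℤ → Bool | x i = true} := fun i =>
      measurableSet_eq_fun (measurable_pi_apply i) measurable_const
    have e : {x : ℤ → Bool | (∀ i : ℤ, ¬ (x i = true ∧ x (i + 1) = true)) ∧
        ∀ i : ℤ, ∃ j : ℤ, i ≤ j ∧ j < i + 6 ∧ x j = true} =
        (⋂ i : ℤ, ({x : ℤ → Bool | x i = true} ∩ {x : ℤ → Bool | x (i + 1) = true})ᶜ) ∩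
          ⋂ i : ℤ, ⋃ j : ℤ, ⋃ (_ : i ≤ j ∧ j < i + 6), {x : ℤ → Bool | x j = true} := by
      ext x
      simp only [Set.mem_ofPred_eq, Set.mem_inter_iff, Set.mem_iInter, Set.mem_compl_iff,
        Set.mem_iUnion, exists_prop, and_assoc]
    rw [e]
    refine MeasurableSet.inter (MeasurableSet.iInter fun i => ((hco i).inter (hco _)).compl) ?_
    exact MeasurableSet.iInter fun i => MeasurableSet.iUnion fun j =>
      MeasurableSet.iUnion fun _ => hco j
  rw [ae_map_iff hmeas.aemeasurable hset]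
  filter_upwards [hprop] with x hx
  exact ⟨Mx_not_adj x, Mx_six x hx⟩

end Pool.Agent.H322FD
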