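import Pool.Agent.Helper322_FD.Defs

/-!
# Deterministic part of one step (helper848 for helper322, MP_5bb7da_pr)
-/

set_option autoImplicit false
open MeasureTheory ProbabilityTheory

namespace Pool.Agent.H322FD

theorem Tm_gap (a : ℕ) (ha : 1 ≤ a) (x : ℤ → Option Bool) (h : Mk a x) :
    Gp (2 * a) (12 * a) (Tm x) := by
  obtain ⟨hgap, htwo, hsix⟩ := h
  refine ⟨?_, ?_⟩
  · intro i j hi hj hij
    have hi' : x i = some true := by simpa [Tm] using hi
    have hj' : x j = some true := by simpa [Tm] using hj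
    obtain ⟨l, h1, h2, h3⟩ := htwo i j hij hi' hj'
    have hl : (fun i => (x i).isSome) l = true := by
      simpa [Option.isSome_iff_ne_none] using h3
    have hii : (fun i => (x i).isSome) i = true := by simp [hi']
    have hjj : (fun i => (x i).isSome) j = true := by simp [hj']
    have h4 := hgap.1 i l hii hl h1
    have h5 := hgap.1 l j hl hjj h2
    push_cast
    linarith
  · intro l
    by_contra hcon
    push Not at hcon
    have h1 := hsix l (12 * a) (fun i h1 h2 h3 => by
      have := hcon i h1 h2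
      simp [Tm, h3] at this)
    have hpt : ∀ k : Fin 6, ∃ i : ℤ, l + 2 * a * (k : ℕ) ≤ i ∧ i < l + 2 * a * (k : ℕ) + 2 * a ∧
        x i ≠ none := by
      intro k
      obtain ⟨i, h2, h3, h4⟩ := hgap.2 (l + 2 * a * (k : ℕ))
      refine ⟨i, h2, by push_cast at h3; exact h3, ?_⟩
      exact Option.isSome_iff_ne_none.1 h4
    choose f hf1 hf2 hf3 using hpt
    have hinj : Function.Injective f := by
      intro k k' hkk
      by_contra hne
      have ha' : (1 : ℤ) ≤ a := by exact_mod_cast ha
      rcases lt_or_gt_of_ne hne with hlt | hlt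
      · have e1 : ((k : ℕ) : ℤ) + 1 ≤ ((k' : ℕ) : ℤ) := by exact_mod_cast hlt
        have e2 := hf2 k
        have e3 := hf1 k'
        rw [hkk] at e2
        nlinarith
      · have e1 : ((k' : ℕ) : ℤ) + 1 ≤ ((k : ℕ) : ℤ) := by exact_mod_cast hlt
        have e2 := hf2 k'
        have e3 := hf1 k
        rw [hkk] at e3
        nlinarith
    have hsub : (Finset.univ.image f) ⊆
        (Finset.Ico l (l + ((12 * a : ℕ) : ℤ))).filter (fun i => x i ≠ none) := by
      intro i hi
      rw [Finset.mem_image] at hi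
      obtain ⟨k, _, rfl⟩ := hi
      rw [Finset.mem_filter, Finset.mem_Ico]
      have hk : ((k : ℕ) : ℤ) ≤ 5 := by have := k.isLt; omega
      have hk0 : (0 : ℤ) ≤ ((k : ℕ) : ℤ) := by positivity
      have ha0 : (0 : ℤ) ≤ a := by positivity
      refine ⟨⟨?_, ?_⟩, hf3 k⟩
      · have := hf1 k
        nlinarith [mul_nonneg ha0 hk0]
      · have := hf2 k
        push_cast
        nlinarith
    have hcard := Finset.card_le_card hsub
    rw [Finset.card_image_of_injective _ hinj, Finset.card_univ, Fintype.card_fin] at hcard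
    omega

lemma Ins_true {a : ℕ} {T : ℤ → Bool} {x : ℤ} : Ins a T x = true ↔
    ∃ t : ℤ, t ≤ x ∧ x < t + 12 * a ∧ T t = true ∧ (∀ u : ℤ, t < u → u ≤ x → T u = false) ∧
      (2 * (a : ℤ)) ∣ x - t ∧ ∀ u : ℤ, x < u → u < x + 2 * a → T u = false := by
  simp [Ins]

theorem Ins_gap (a : ℕ) (ha : 1 ≤ a) (T : ℤ → Bool) (h : Gp (2 * a) (12 * a) T) :
    Gp (2 * a) (4 * a) (Ins a T) := by
  obtain ⟨hT1, hT2⟩ := h
  have ha' : (1 : ℤ) ≤ a := by exact_mod_cast ha
  push_cast at hT1 hT2
  refine ⟨?_, ?_⟩
  · intro x y hx hy hxy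
    rw [Ins_true] at hx hy
    obtain ⟨t, h1, -, h3, h4, h5, h6⟩ := hx
    obtain ⟨s, g1, -, g3, g4, g5, -⟩ := hy
    push_cast
    by_cases hsx : s ≤ x
    · have hst : s = t := by
        by_contra hne
        rcases lt_or_gt_of_ne hne with hlt | hlt
        · have := g4 t hlt (by linarith)
          rw [h3] at this
          exact absurd this (by simp)
        · have := h4 s hlt hsx
          rw [g3] at this
          exact absurd this (by simp)
      subst hst
      have hd : (2 * (a : ℤ)) ∣ y - x := by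
        have := dvd_sub g5 h5
        rwa [show y - s - (x - s) = y - x by ring] at this
      have := Int.le_of_dvd (by linarith) hd
      linarith
    · push Not at hsx
      by_contra hcon
      push Not at hcon
      have := h6 s hsx (by linarith)
      rw [g3] at this
      exact absurd this (by simp)
  · intro l
    -- the last point `t ≤ l`
    obtain ⟨t, ⟨ht1, ht2⟩, ht3⟩ : ∃ t : ℤ, (t ≤ l ∧ T t = true) ∧
        ∀ z : ℤ, (z ≤ l ∧ T z = true) → z ≤ t := by
      obtain ⟨i, h1, h2, h3⟩ := hT2 (l - 12 * a + 1)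
      exact Int.exists_greatest_of_bdd ⟨l, fun z hz => hz.1⟩ ⟨i, by linarith, h3⟩
    -- the next point
    obtain ⟨t', ⟨ht1', ht2'⟩, ht3'⟩ : ∃ t' : ℤ, (l < t' ∧ T t' = true) ∧
        ∀ z : ℤ, (l < z ∧ T z = true) → t' ≤ z := by
      obtain ⟨i, h1, h2, h3⟩ := hT2 (l + 1)
      exact Int.exists_least_of_bdd ⟨l, fun z hz => hz.1.le⟩ ⟨i, by linarith, h3⟩
    have hnone : ∀ u : ℤ, t < u → u < t' → T u = false := by
      intro u h1 h2
      by_contra hu
      have hu' : T u = true := by simpa using hu
      rcases le_or_gt u l with h3 | h3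
      · have := ht3 u ⟨h3, hu'⟩
        linarith
      · have := ht3' u ⟨h3, hu'⟩
        linarith
    have htt : t' ≤ t + 12 * a := by
      obtain ⟨i, h1, h2, h3⟩ := hT2 (t + 1)
      by_contra hcon
      push Not at hcon
      have := hnone i (by linarith) (by linarith)
      rw [h3] at this
      exact absurd this (by simp)
    -- the candidate
    set q : ℤ := (l - t + 2 * a - 1) / (2 * a) with hq
    have hq1 : (2 * (a : ℤ)) * q ≤ l - t + 2 * a - 1 := Int.mul_ediv_self_le (by linarith)
    have hq2 : l - t + 2 * a - 1 < (2 * (a : ℤ)) * q + 2 * a := by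
      have := Int.lt_mul_ediv_self_add (x := l - t + 2 * a - 1) (k := 2 * (a : ℤ)) (by linarith)
      linarith
    set x : ℤ := t + 2 * a * q with hx
    have hx1 : l ≤ x := by rw [hx]; linarith
    have hx2 : x < l + 2 * a := by rw [hx]; linarith
    by_cases hc : x + 2 * a ≤ t'
    · refine ⟨x, hx1, by push_cast; linarith, ?_⟩
      rw [Ins_true]
      refine ⟨t, by linarith, by linarith, ht2, fun u h1 h2 => hnone u h1 (by linarith), ?_,
        fun u h1 h2 => hnone u (by linarith) (by linarith)⟩
      rw [hx, show t + 2 * (a : ℤ) * q - t = 2 * a * q by ring]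
      exact dvd_mul_right _ _
    · push Not at hc
      refine ⟨t', by linarith, by push_cast; linarith, ?_⟩
      rw [Ins_true]
      refine ⟨t', le_refl _, by linarith, ht2', fun u h1 h2 => by linarith, by simp, ?_⟩
      intro u h1 h2
      by_contra hu
      have hu' : T u = true := by simpa using hu
      have := hT1 t' u ht2' hu' h1
      linarith

theorem Ins_shift (a : ℕ) (T : ℤ → Bool) (n i : ℤ) :
    Ins a (fun j => T (j + n)) i = Ins a T (i + n) := by
  rw [Bool.eq_iff_iff, Ins_true, Ins_true]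
  constructor
  · rintro ⟨t, h1, h2, h3, h4, h5, h6⟩
    refine ⟨t + n, by linarith, by linarith, h3, fun u g1 g2 => ?_, ?_, fun u g1 g2 => ?_⟩
    · have := h4 (u - n) (by linarith) (by linarith)
      simpa using this
    · rwa [show i + n - (t + n) = i - t by ring]
    · have := h6 (u - n) (by linarith) (by linarith)
      simpa using this
  · rintro ⟨t, h1, h2, h3, h4, h5, h6⟩
    refine ⟨t - n, by linarith, by linarith, by simpa using h3, fun u g1 g2 => ?_, ?_,
      fun u g1 g2 => ?_⟩
    · exact h4 (u + n) (by linarith) (by linarith)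
    · rwa [show i - (t - n) = i + n - t by ring]
    · exact h6 (u + n) (by linarith) (by linarith)

theorem Ins_loc (a : ℕ) (T T' : ℤ → Bool) (i : ℤ)
    (h : ∀ j : ℤ, |j - i| ≤ ((12 * a : ℕ) : ℤ) → T j = T' j) : Ins a T i = Ins a T' i := by
  push_cast at h
  have key : ∀ S S' : ℤ → Bool, (∀ j : ℤ, |j - i| ≤ 12 * (a : ℤ) → S j = S' j) →
      Ins a S i = true → Ins a S' i = true := by
    intro S S' hS hi
    rw [Ins_true] at hi ⊢
    obtain ⟨t, h1, h2, h3, h4, h5, h6⟩ := hi
    have ha0 : (0 : ℤ) ≤ a := by positivity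
    refine ⟨t, h1, h2, ?_, fun u g1 g2 => ?_, h5, fun u g1 g2 => ?_⟩
    · rw [← hS t (by rw [abs_le]; constructor <;> linarith)]
      exact h3
    · rw [← hS u (by rw [abs_le]; constructor <;> linarith)]
      exact h4 u g1 g2
    · rw [← hS u (by rw [abs_le]; constructor <;> linarith)]
      exact h6 u g1 g2
  rw [Bool.eq_iff_iff]
  exact ⟨key T T' h, key T' T fun j hj => (h j hj).symm⟩

end Pool.Agent.H322FD
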